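import Pool.Agent.Work.MP_11cc5c_an.Main

/-!
# Linear bijections commuting with the mean-type Aluthge transforms

`H` is an arbitrary complex Hilbert space and `Λ` is the mean-Aluthge transform or one of the
transforms `M_l`, `0 ≤ l ≤ 1 / 2`.  A bijective complex-linear map `Φ` on `B(H)` (no continuity
assumed) commutes with `Λ` if and only if `Φ T = c • U T U⋆` for a nonzero scalar `c` and a
unitary `U`.
-/

namespace Pool.Agent.Results.MP_11cc5c_an.CommutingMaps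

open Pool.Agent.Work.MP_11cc5c_an

theorem result {H : Type*} [NormedAddCommGroup H] [InnerProductSpace ℂ H] [CompleteSpace H]
    (Λ : (H →L[ℂ] H) → (H →L[ℂ] H))
    (hΛ : Λ = meanAluthge ∨ ∃ l : ℝ, 0 ≤ l ∧ l ≤ 1 / 2 ∧ Λ = Mtr l)
    (Φ : (H →L[ℂ] H) →ₗ[ℂ] (H →L[ℂ] H)) (hΦ : Function.Bijective Φ) :
    (∀ T, Φ (Λ T) = Λ (Φ T)) ↔
      ∃ c : ℂ, c ≠ 0 ∧ ∃ U ∈ unitary (H →L[ℂ] H), ∀ T, Φ T = c • (U * T * star U) :=
  main Λ hΛ Φ hΦ

end Pool.Agent.Results.MP_11cc5c_an.CommutingMaps
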